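import Mathlib

/-!
# MP_c7af3c_ag, project LINEX: the combinatorial lemma
The blocks `[off j, off j + d j]` partition `[0, N)`; the pair `{2 m, 2 m + 1}`.
-/

set_option autoImplicit false

namespace Pool.Agent.Linex

variable {c : ℕ} (d : Fin c → ℕ)

/-- the beginning of the block `j` -/
def off (j : Fin c) : ℕ := ∑ i ∈ Finset.Iio j, (d i + 1)

theorem off_lt {j j' : Fin c} (h : j < j') : off d j + d j + 1 ≤ off d j' := by
  unfold off
  have h1 : insert j (Finset.Iio j) ⊆ Finset.Iio j' := by
    intro i hi
    rcases Finset.mem_insert.1 hi with rfl | hi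
    · exact Finset.mem_Iio.2 h
    · exact Finset.mem_Iio.2 ((Finset.mem_Iio.1 hi).trans h)
  have h2 := Finset.sum_le_sum_of_subset (f := fun i => d i + 1) h1
  rw [Finset.sum_insert (by simp)] at h2
  omega

theorem off_le (j : Fin c) : off d j + d j + 1 ≤ ∑ i, (d i + 1) := by
  unfold off
  have h2 := Finset.sum_le_sum_of_subset (f := fun i => d i + 1)
    (Finset.subset_univ (insert j (Finset.Iio j)))
  rw [Finset.sum_insert (by simp)] at h2
  omega

theorem off_inj {j j' : Fin c} {i i' : ℕ} (hi : i ≤ d j) (hi' : i' ≤ d j')
    (h : off d j + i = off d j' + i') : j = j' ∧ i = i' := by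
  rcases lt_trichotomy j j' with h1 | rfl | h1
  · have := off_lt d h1
    omega
  · exact ⟨rfl, by omega⟩
  · have := off_lt d h1
    omega

/-- the coefficient of `x_m x_0^(d_j - 1 - i) x_1^i` in the special form of index `j` is 1 -/
def CC (j : Fin c) (m i : ℕ) : Prop :=
  i + 1 ≤ d j ∧ (off d j + i = 2 * m ∨ (i = 0 ∧ off d j = 2 * m + 1) ∨
    (i + 1 = d j ∧ off d j + d j = 2 * m))

variable {σ : Type} [Fintype σ] (L : σ → Prop) (blk : σ → Fin c) (loc : σ → ℕ)

open Classical in
theorem comb {r : ℕ} (hd : ∀ j, 1 ≤ d j) (hN : ∑ j, (d j + 1) ≤ 2 * r)
    (hinj : ∀ s s', L s → L s' → blk s = blk s' → loc s = loc s' → s = s')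
    (hloc : ∀ s, L s → loc s ≤ d (blk s)) (lam : σ → ℚ)
    (ha : ∀ m < r, ∑ s, (if L s ∧ CC d (blk s) m (loc s) then lam s else 0) = 0)
    (hb : ∀ m < r, ∑ s, (if L s ∧ 1 ≤ loc s ∧ CC d (blk s) m (loc s - 1) then lam s else 0) = 0) :
    ∀ s, L s → lam s = 0 := by
  have hlt : ∀ s, L s → off d (blk s) + loc s < 2 * r := fun s hs => by
    have h1 := off_le d (blk s)
    have h2 := hloc s hs
    omega
  have hss : ∀ s s', L s → L s' → off d (blk s) + loc s = off d (blk s') + loc s' → s = s' := by
    intro s s' hs hs' h
    obtain ⟨h1, h2⟩ := off_inj d (hloc s hs) (hloc s' hs') h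
    exact hinj s s' hs hs' h1 h2
  -- odd indices
  have hodd : ∀ q : ℕ, ∀ s, L s → off d (blk s) + loc s = q → q % 2 = 1 → lam s = 0 := by
    intro q
    induction q using Nat.strong_induction_on with
    | _ q ih =>
      intro s hs hq hodd
      obtain ⟨m, hm⟩ : ∃ m, q = 2 * m + 1 := ⟨q / 2, by omega⟩
      have hmr : m < r := by
        have := hlt s hs
        omega
      have hls := hloc s hs
      rcases Nat.eq_zero_or_pos (loc s) with h0 | h0
      · have h1 := ha m hmr
        rw [Finset.sum_eq_single s] at h1
        · rw [if_pos] at h1
          · exact h1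
          · refine ⟨hs, ?_, Or.inr (Or.inl ⟨h0, by omega⟩)⟩
            have := hd (blk s)
            omega
        · intro s' _ hne
          split_ifs with hc
          · obtain ⟨hs', hc1, hc2⟩ := hc
            rcases hc2 with hc2 | ⟨hc2, hc3⟩ | ⟨hc2, hc3⟩
            · exfalso
              have h3 : off d (blk s') + (loc s' + 1) = off d (blk s) + loc s := by omega
              obtain ⟨-, h4⟩ := off_inj d hc1 hls h3
              omega
            · exact absurd (hss s' s hs' hs (by omega)) hne
            · exact ih (2 * m - 1) (by omega) s' hs' (by omega) (by omega)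
          · rfl
        · intro h
          exact absurd (Finset.mem_univ s) h
      · have h1 := hb m hmr
        rw [Finset.sum_eq_single s] at h1
        · rw [if_pos] at h1
          · exact h1
          · exact ⟨hs, h0, by omega, Or.inl (by omega)⟩
        · intro s' _ hne
          split_ifs with hc
          · obtain ⟨hs', hc0, hc1, hc2⟩ := hc
            have hls' := hloc s' hs'
            rcases hc2 with hc2 | ⟨hc2, hc3⟩ | ⟨hc2, hc3⟩
            · exact absurd (hss s' s hs' hs (by omega)) hne
            · exfalso
              have h3 : off d (blk s') + 0 = off d (blk s) + loc s := by omega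
              obtain ⟨-, h4⟩ := off_inj d (Nat.zero_le _) hls h3
              omega
            · exfalso
              have h3 : off d (blk s') + d (blk s') = off d (blk s) + (loc s - 1) := by omega
              obtain ⟨h4, h5⟩ := off_inj d le_rfl (by omega) h3
              rw [h4] at h5
              omega
          · rfl
        · intro h
          exact absurd (Finset.mem_univ s) h
  -- even indices
  have heven : ∀ t : ℕ, ∀ s, L s → off d (blk s) + loc s + t = 2 * r → t % 2 = 0 →
      lam s = 0 := by
    intro t
    induction t using Nat.strong_induction_on with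
    | _ t ih =>
      intro s hs hq heven
      obtain ⟨m, hm⟩ : ∃ m, off d (blk s) + loc s = 2 * m :=
        ⟨(off d (blk s) + loc s) / 2, by omega⟩
      have hmr : m < r := by
        have := hlt s hs
        omega
      have hls := hloc s hs
      rcases Nat.lt_or_ge (loc s) (d (blk s)) with h0 | h0
      · have h1 := ha m hmr
        rw [Finset.sum_eq_single s] at h1
        · rw [if_pos] at h1
          · exact h1
          · exact ⟨hs, h0, Or.inl hm⟩
        · intro s' _ hne
          split_ifs with hc
          · obtain ⟨hs', hc1, hc2⟩ := hc
            rcases hc2 with hc2 | ⟨hc2, hc3⟩ | ⟨hc2, hc3⟩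
            · exact absurd (hss s' s hs' hs (by omega)) hne
            · exfalso
              have h3 : off d (blk s') + 0 = off d (blk s) + (loc s + 1) := by omega
              obtain ⟨-, h4⟩ := off_inj d (Nat.zero_le _) h0 h3
              omega
            · exfalso
              have h3 : off d (blk s') + d (blk s') = off d (blk s) + loc s := by omega
              obtain ⟨h4, h5⟩ := off_inj d le_rfl hls h3
              rw [h4] at h5
              omega
          · rfl
        · intro h
          exact absurd (Finset.mem_univ s) h
      · have h1 := hb m hmr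
        have hdd := hd (blk s)
        rw [Finset.sum_eq_single s] at h1
        · rw [if_pos] at h1
          · exact h1
          · exact ⟨hs, by omega, by omega, Or.inr (Or.inr ⟨by omega, by omega⟩)⟩
        · intro s' _ hne
          split_ifs with hc
          · obtain ⟨hs', hc0, hc1, hc2⟩ := hc
            have hls' := hloc s' hs'
            rcases hc2 with hc2 | ⟨hc2, hc3⟩ | ⟨hc2, hc3⟩
            · exfalso
              have h3 : off d (blk s') + (loc s' - 1) = off d (blk s) + loc s := by omega
              obtain ⟨h4, h5⟩ := off_inj d (by omega) hls h3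
              rw [h4] at hc1
              omega
            · exact ih (t - 2) (by omega) s' hs' (by omega) (by omega)
            · refine absurd (hss s' s hs' hs ?_) hne
              have h3 : off d (blk s') + d (blk s') = off d (blk s) + loc s := by omega
              obtain ⟨h4, h5⟩ := off_inj d le_rfl hls h3
              omega
          · rfl
        · intro h
          exact absurd (Finset.mem_univ s) h
  intro s hs
  have h1 := hlt s hs
  rcases Nat.mod_two_eq_zero_or_one (off d (blk s) + loc s) with h2 | h2
  · exact heven (2 * r - (off d (blk s) + loc s)) s hs (by omega) (by omega)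
  · exact hodd _ s hs rfl h2

end Pool.Agent.Linex
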