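import Mathlib

/-!
# MP_c7af3c_ag, project LINEX: the Jacobian criterion (the easy direction)
-/

set_option autoImplicit false

namespace Pool.Agent.Linex

open MvPolynomial

section

variable {R B : Type} [CommRing R] [CommRing B] [Algebra R B] {σ ι : Type}

/-- chain rule -/
theorem chain [Fintype σ] (p : σ → B) (δ : Derivation R B B) (Q : MvPolynomial σ R) :
    δ (aeval p Q) = ∑ s, aeval p (pderiv s Q) * δ (p s) := by
  classical
  induction Q using MvPolynomial.induction_on with
  | C a =>
    rw [aeval_C, Derivation.map_algebraMap]
    simp
  | add f g hf hg =>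
    simp only [map_add, hf, hg, add_mul, Finset.sum_add_distrib]
  | mul_X f t hf =>
    rw [map_mul, aeval_X, Derivation.leibniz, hf]
    have h1 : ∀ s, aeval p (pderiv s (f * X t)) * δ (p s) =
        (if s = t then aeval p f * δ (p s) else 0) + p t * (aeval p (pderiv s f) * δ (p s)) := by
      intro s
      rw [Derivation.leibniz, pderiv_X]
      simp only [smul_eq_mul, map_add, map_mul, aeval_X, Pi.single_apply]
      by_cases h : s = t
      · subst h
        simp only [if_true, map_one, mul_one]
        ring
      · rw [if_neg h, if_neg fun h' => h h'.symm]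
        simp only [map_zero, mul_zero, zero_add]
        ring
    rw [Finset.sum_congr rfl fun s _ => h1 s, Finset.sum_add_distrib, Finset.sum_ite_eq',
      if_pos (Finset.mem_univ t), ← Finset.mul_sum]
    simp only [smul_eq_mul]

/-- Jacobian criterion. -/
theorem jac [Fintype σ] [IsDomain R] [CharZero R] [IsDomain B]
    (hRB : Function.Injective (algebraMap R B)) (p : σ → B) (δ : ι → Derivation R B B)
    (h : ∀ c : σ → B, (∀ i, ∑ s, c s * δ i (p s) = 0) → c = 0) : AlgebraicIndependent R p := by
  classical
  rw [algebraicIndependent_iff]
  have key : ∀ N : ℕ, ∀ Q : MvPolynomial σ R, (∀ I, coeff I Q ≠ 0 → I.degree ≤ N) →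
      aeval p Q = 0 → Q = 0 := by
    intro N
    induction N with
    | zero =>
      intro Q hQ h0
      have h1 : Q = C (coeff 0 Q) := by
        ext I
        rw [coeff_C]
        split_ifs with hI
        · rw [hI]
        · by_contra hc
          have := hQ I hc
          rw [Nat.le_zero, Finsupp.degree_eq_zero_iff] at this
          exact hI this.symm
      rw [h1, aeval_C] at h0
      rw [h1, hRB (h0.trans (map_zero _).symm), map_zero]
    | succ N ih =>
      intro Q hQ h0
      have h1 : (fun s => aeval p (pderiv s Q)) = 0 := by
        refine h _ fun i => ?_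
        rw [← chain p (δ i) Q, h0, map_zero]
      have h2 : ∀ s, pderiv s Q = 0 := by
        intro s
        refine ih _ (fun I hI => ?_) (congrFun h1 s)
        rw [coeff_pderiv] at hI
        have h3 := hQ _ (left_ne_zero_of_mul hI)
        rw [map_add, Finsupp.degree_single] at h3
        omega
      have h3 : ∀ I, I ≠ 0 → coeff I Q = 0 := by
        intro I hI
        obtain ⟨s, hs⟩ : ∃ s, I s ≠ 0 := by
          by_contra hc
          push Not at hc
          exact hI (Finsupp.ext hc)
        have h4 := congrArg (coeff (I - Finsupp.single s 1)) (h2 s)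
        rw [coeff_pderiv, coeff_zero] at h4
        have h5 : I - Finsupp.single s 1 + Finsupp.single s 1 = I := by
          refine tsub_add_cancel_of_le ?_
          rw [Finsupp.single_le_iff]
          omega
        rw [h5] at h4
        rcases mul_eq_zero.1 h4 with h6 | h6
        · exact h6
        · exfalso
          exact Nat.cast_add_one_ne_zero _ h6
      have h1 : Q = C (coeff 0 Q) := by
        ext I
        rw [coeff_C]
        split_ifs with hI
        · rw [hI]
        · exact h3 I fun h' => hI h'.symm
      rw [h1, aeval_C] at h0
      rw [h1, hRB (h0.trans (map_zero _).symm), map_zero]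
  intro Q hQ
  refine key (Q.support.sup Finsupp.degree) Q (fun I hI => ?_) hQ
  exact Finset.le_sup (f := Finsupp.degree) (mem_support_iff.2 hI)

end

/-- from a special point to the generic point: if the left kernel of the matrix `J` is zero at a
point with values in a field contained in `B`, it is zero. -/
theorem kernel_generic {K B : Type} [Field K] [CommRing B] [IsDomain B] [Algebra K B] {σ ι : Type}
    [Fintype σ] [Fintype ι] (J : σ → ι → B) (ev : B →ₐ[K] K)
    (h : ∀ lam : σ → K, (∀ i, ∑ s, lam s * ev (J s i) = 0) → lam = 0) :
    ∀ c : σ → B, (∀ i, ∑ s, c s * J s i = 0) → c = 0 := by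
  classical
  -- the linear map
  let f : (σ → K) →ₗ[K] (ι → K) := Matrix.vecMulLinear (Matrix.of fun s i => ev (J s i))
  have hf : ∀ lam i, f lam i = ∑ s, lam s * ev (J s i) := fun lam i => rfl
  have hker : LinearMap.ker f = ⊥ := by
    rw [LinearMap.ker_eq_bot']
    intro lam hlam
    exact h lam fun i => by rw [← hf, hlam]; rfl
  obtain ⟨g, hg⟩ := f.exists_leftInverse_of_injective hker
  -- the matrix of `g`
  set M : ι → σ → K := fun i t => g (Pi.single i 1) t with hM
  have hMJ : ∀ s t, ∑ i, ev (J s i) * M i t = if s = t then 1 else 0 := by
    intro s t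
    have h1 := congrArg (fun φ : (σ → K) →ₗ[K] (σ → K) => φ (Pi.single s 1) t) hg
    simp only [LinearMap.comp_apply, LinearMap.id_apply] at h1
    have h2 : f (Pi.single s 1) = ∑ i, ev (J s i) • Pi.single (M := fun _ => K) i 1 := by
      funext i
      rw [hf, Finset.sum_eq_single s]
      · rw [Pi.single_eq_same, one_mul, Finset.sum_apply, Finset.sum_eq_single i]
        · rw [Pi.smul_apply, Pi.single_eq_same, smul_eq_mul, mul_one]
        · intro j _ hj
          rw [Pi.smul_apply, Pi.single_eq_of_ne hj.symm, smul_zero]
        · intro h'
          exact absurd (Finset.mem_univ i) h'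
      · intro j _ hj
        rw [Pi.single_eq_of_ne hj, zero_mul]
      · intro h'
        exact absurd (Finset.mem_univ s) h'
    rw [h2, map_sum] at h1
    simp only [map_smul, Finset.sum_apply, Pi.smul_apply, smul_eq_mul] at h1
    rw [h1, Pi.single_apply]
    simp only [eq_comm]
  intro c hc
  -- the determinant
  let A : Matrix σ σ B := Matrix.of fun s t => ∑ i, J s i * algebraMap K B (M i t)
  have hdet : A.det ≠ 0 := by
    intro h0
    have h1 : ev A.det = 1 := by
      have h2 : ev.toRingHom.mapMatrix A = 1 := by
        ext s t
        rw [RingHom.mapMatrix_apply, Matrix.map_apply]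
        change ev (∑ i, J s i * algebraMap K B (M i t)) = _
        rw [map_sum, Matrix.one_apply, ← hMJ s t]
        refine Finset.sum_congr rfl fun i _ => ?_
        rw [map_mul, AlgHom.commutes]
        rfl
      have h3 := RingHom.map_det ev.toRingHom A
      rw [h2, Matrix.det_one] at h3
      exact h3
    rw [h0, map_zero] at h1
    exact zero_ne_one h1
  have hcA : Matrix.vecMul c A = 0 := by
    funext t
    change ∑ s, c s * ∑ i, J s i * algebraMap K B (M i t) = 0
    simp only [Finset.mul_sum]
    rw [Finset.sum_comm]
    have h1 : ∀ i, ∑ s, c s * (J s i * algebraMap K B (M i t)) = 0 := by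
      intro i
      have h2 : ∑ s, c s * (J s i * algebraMap K B (M i t)) =
          (∑ s, c s * J s i) * algebraMap K B (M i t) := by
        rw [Finset.sum_mul]
        exact Finset.sum_congr rfl fun s _ => by ring
      rw [h2, hc i, zero_mul]
    exact Finset.sum_eq_zero fun i _ => h1 i
  exact Matrix.eq_zero_of_vecMul_eq_zero hdet hcA

end Pool.Agent.Linex
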