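import Pool.Agent.Lib.MP_c7af3c_ag.LINEX.Comb
import Pool.Agent.Lib.MP_c7af3c_ag.LINEX.Jac
import Pool.Agent.Lib.MP_c7af3c_ag.LINES.H19.Sys

/-!
# MP_c7af3c_ag, project LINEX: the generic forms which vanish on a generic line
-/

set_option autoImplicit false

namespace Pool.Agent.Linex

open MvPolynomial Pool.Agent.Gen Pool.Agent.GenY.H46 Pool.Agent.Sharp Pool.Agent.Sharp.H54
open Pool.Agent.Lines.H19

section

variable {A : Type} [CommRing A] {r : ℕ}

/-- first vector of the line -/
def vu (y : Fin 2 × Fin r → A) : Fin (r + 1 + 1) → A :=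
  Fin.cons 1 (Fin.cons 0 fun m => y (0, m))

/-- second vector of the line -/
def vv (y : Fin 2 × Fin r → A) : Fin (r + 1 + 1) → A :=
  Fin.cons 0 (Fin.cons 1 fun m => y (1, m))

/-- the monomial on the line -/
noncomputable def mon (y : Fin 2 × Fin r → A) (I : Fin (r + 1 + 1) →₀ ℕ) : Polynomial A :=
  ∏ l, (Polynomial.C (vu y l) + Polynomial.X * Polynomial.C (vv y l)) ^ I l

theorem mon_eq (y : Fin 2 × Fin r → A) (I : Fin (r + 1 + 1) →₀ ℕ) :
    mon y I = Polynomial.X ^ I 1 * ∏ m : Fin r,
      (Polynomial.C (y (0, m)) + Polynomial.X * Polynomial.C (y (1, m))) ^ I m.succ.succ := by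
  unfold mon
  rw [Fin.prod_univ_succ, Fin.prod_univ_succ]
  have h0 : (Polynomial.C (vu y 0) + Polynomial.X * Polynomial.C (vv y 0)) ^ I 0 =
      (1 : Polynomial A) := by
    simp [vu, vv]
  have h1 : (Polynomial.C (vu y (Fin.succ 0)) + Polynomial.X * Polynomial.C (vv y (Fin.succ 0))) ^
      I (Fin.succ 0) = (Polynomial.X : Polynomial A) ^ I 1 := by
    simp [vu, vv]
  rw [h0, h1, one_mul]
  rfl

variable {c : ℕ} (d : Fin c → ℕ)

/-- the monomial does not contain the variables `x_2, …` -/
def isL (s : Ix (M := r + 1) d) : Prop := ∀ m : Fin r, s.1.2 m.succ.succ = 0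

theorem mon_isL (y : Fin 2 × Fin r → A) (s : Ix (M := r + 1) d) (h : isL d s) :
    mon y s.1.2 = Polynomial.X ^ s.1.2 1 := by
  rw [mon_eq]
  rw [Finset.prod_eq_one fun m _ => ?_, mul_one]
  rw [h m, pow_zero]

open Classical in
/-- the part of the form of index `j` on the line which comes from the other monomials -/
noncomputable def rest (x : Ix (M := r + 1) d → A) (y : Fin 2 × Fin r → A) (j : Fin c) :
    Polynomial A :=
  ∑ s, if s.1.1 = j ∧ ¬ isL d s then Polynomial.C (x s) * mon y s.1.2 else 0

open Classical in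
/-- the coefficients of the generic forms which vanish on the line -/
noncomputable def pp (x : Ix (M := r + 1) d → A) (y : Fin 2 × Fin r → A)
    (s : Ix (M := r + 1) d) : A :=
  if isL d s then - (rest d x y s.1.1).coeff (s.1.2 1) else x s

theorem map_mon {A' : Type} [CommRing A'] (φ : A →+* A') (y : Fin 2 × Fin r → A)
    (I : Fin (r + 1 + 1) →₀ ℕ) : (mon y I).map φ = mon (fun t => φ (y t)) I := by
  rw [mon_eq, mon_eq, Polynomial.map_mul, Polynomial.map_pow, Polynomial.map_X,
    Polynomial.map_prod]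
  congr 1
  refine Finset.prod_congr rfl fun m _ => ?_
  simp only [Polynomial.map_pow, Polynomial.map_add, Polynomial.map_mul, Polynomial.map_C,
    Polynomial.map_X]

theorem map_rest {A' : Type} [CommRing A'] (φ : A →+* A') (x : Ix (M := r + 1) d → A)
    (y : Fin 2 × Fin r → A) (j : Fin c) :
    (rest d x y j).map φ = rest d (fun s => φ (x s)) (fun t => φ (y t)) j := by
  unfold rest
  rw [Polynomial.map_sum]
  refine Finset.sum_congr rfl fun s _ => ?_
  split_ifs
  · rw [Polynomial.map_mul, Polynomial.map_C, map_mon]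
  · exact Polynomial.map_zero _

theorem map_pp {A' : Type} [CommRing A'] (φ : A →+* A') (x : Ix (M := r + 1) d → A)
    (y : Fin 2 × Fin r → A) (s : Ix (M := r + 1) d) :
    φ (pp d x y s) = pp d (fun s => φ (x s)) (fun t => φ (y t)) s := by
  unfold pp
  split_ifs
  · rw [map_neg, ← map_rest, Polynomial.coeff_map]
  · rfl

theorem degree_fin (I : Fin (r + 1 + 1) →₀ ℕ) :
    I.degree = I 0 + I 1 + ∑ m : Fin r, I m.succ.succ := by
  rw [Finsupp.degree_eq_sum, Fin.sum_univ_succ, Fin.sum_univ_succ]
  simp only [Fin.succ_zero_eq_one]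
  ring

theorem isL_inj (s s' : Ix (M := r + 1) d) (h : isL d s) (h' : isL d s') (h1 : s.1.1 = s'.1.1)
    (h2 : s.1.2 1 = s'.1.2 1) : s = s' := by
  have e1 := degree_fin s.1.2
  have e2 := degree_fin s'.1.2
  rw [s.2, Finset.sum_eq_zero fun m _ => h m] at e1
  rw [s'.2, Finset.sum_eq_zero fun m _ => h' m] at e2
  apply Subtype.ext
  apply Prod.ext h1
  ext l
  refine Fin.cases ?_ (fun l => ?_) l
  · rw [h1] at e1
    omega
  · refine Fin.cases ?_ (fun m => ?_) l
    · exact h2
    · rw [h m, h' m]

theorem isL_loc (s : Ix (M := r + 1) d) : s.1.2 1 ≤ d s.1.1 := by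
  have e1 := degree_fin s.1.2
  rw [s.2] at e1
  omega

end

/-- the forms `pp` vanish on the line -/
theorem lineP_pp {K : Type} [Field K] {r c : ℕ} (d : Fin c → ℕ) (x : Ix (M := r + 1) d → K)
    (y : Fin 2 × Fin r → K) (j : Fin c) :
    lineP (formOf (pp d x y) j) (vu y) (vv y) = 0 := by
  classical
  have hdeg : ∀ s : Ix (M := r + 1) d, (mon y s.1.2).natDegree ≤ d s.1.1 := by
    intro s
    have h1 := natDegree_lineP_le (vu y) (vv y)
      (isHomogeneous_monomial (σ := Fin (r + 1 + 1)) (n := d s.1.1) (1 : K) (d := s.1.2) s.2)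
    have h2 : lineP (monomial s.1.2 (1 : K)) (vu y) (vv y) = mon y s.1.2 := by
      unfold lineP mon
      rw [aeval_monomial, Finsupp.prod_fintype _ _ (fun _ => pow_zero _), map_one, one_mul]
    rwa [h2] at h1
  rw [lineP_formOf]
  have h1 : ∀ s : Ix (M := r + 1) d, (if s.1.1 = j then Polynomial.C (pp d x y s) *
      ∏ l, (Polynomial.C (vu y l) + Polynomial.X * Polynomial.C (vv y l)) ^ s.1.2 l else 0) =
      (if s.1.1 = j ∧ isL d s then - Polynomial.C ((rest d x y j).coeff (s.1.2 1)) *
        Polynomial.X ^ s.1.2 1 else 0) +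
      (if s.1.1 = j ∧ ¬ isL d s then Polynomial.C (x s) * mon y s.1.2 else 0) := by
    intro s
    by_cases h2 : s.1.1 = j
    · subst h2
      by_cases h3 : isL d s
      · rw [if_pos rfl, if_pos ⟨rfl, h3⟩, if_neg (fun h => h.2 h3), add_zero]
        change Polynomial.C (pp d x y s) * mon y s.1.2 = _
        rw [mon_isL d y s h3]
        unfold pp
        rw [if_pos h3, map_neg]
      · rw [if_pos rfl, if_neg (fun h => h3 h.2), if_pos ⟨rfl, h3⟩, zero_add]
        change Polynomial.C (pp d x y s) * mon y s.1.2 = _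
        unfold pp
        rw [if_neg h3]
    · rw [if_neg h2, if_neg (fun h => h2 h.1), if_neg (fun h => h2 h.1), add_zero]
  rw [Finset.sum_congr rfl fun s _ => h1 s, Finset.sum_add_distrib]
  change _ + rest d x y j = 0
  have hrd : (rest d x y j).natDegree ≤ d j := by
    unfold rest
    refine Polynomial.natDegree_sum_le_of_forall_le _ _ fun s _ => ?_
    split_ifs with h2
    · refine (Polynomial.natDegree_C_mul_le _ _).trans ?_
      rw [← h2.1]
      exact hdeg s
    · simp
  ext i
  rw [Polynomial.coeff_add, Polynomial.finsetSum_coeff, Polynomial.coeff_zero]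
  by_cases hi : i ≤ d j
  · -- the monomial `x_0^(d-i) x_1^i`
    have hs0 : (Finsupp.single (0 : Fin (r + 1 + 1)) (d j - i) + Finsupp.single 1 i).degree =
        d j := by
      rw [map_add, Finsupp.degree_single, Finsupp.degree_single]
      omega
    set s0 : Ix (M := r + 1) d := ⟨(j, Finsupp.single (0 : Fin (r + 1 + 1)) (d j - i) +
      Finsupp.single 1 i), hs0⟩ with hs0'
    have h10 : (1 : Fin (r + 1 + 1)) ≠ 0 := by
      intro h
      have := congrArg Fin.val h
      simp at this
    have hL0 : isL d s0 := by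
      intro m
      simp only [hs0', Finsupp.add_apply]
      have e0 : m.succ.succ ≠ (0 : Fin (r + 1 + 1)) := Fin.succ_ne_zero _
      have e1 : m.succ.succ ≠ (1 : Fin (r + 1 + 1)) := by
        rw [← Fin.succ_zero_eq_one, Ne, Fin.succ_inj]
        exact Fin.succ_ne_zero _
      rw [Finsupp.single_eq_of_ne e0, Finsupp.single_eq_of_ne e1, add_zero]
    have hl0 : s0.1.2 1 = i := by
      simp only [hs0', Finsupp.add_apply]
      rw [Finsupp.single_eq_of_ne h10, Finsupp.single_eq_same, zero_add]
    rw [Finset.sum_eq_single s0]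
    · rw [if_pos ⟨rfl, hL0⟩, hl0, neg_mul, Polynomial.coeff_neg, Polynomial.coeff_C_mul_X_pow,
        if_pos rfl]
      ring
    · intro s _ hne
      split_ifs with h2
      · rw [neg_mul, Polynomial.coeff_neg, Polynomial.coeff_C_mul_X_pow, if_neg, neg_zero]
        intro h3
        exact hne (isL_inj d s s0 h2.2 hL0 h2.1 (by rw [hl0, ← h3]))
      · simp
    · intro h
      exact absurd (Finset.mem_univ s0) h
  · rw [Polynomial.coeff_eq_zero_of_natDegree_lt (by omega : (rest d x y j).natDegree < i),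
      add_zero]
    refine Finset.sum_eq_zero fun s _ => ?_
    split_ifs with h2
    · rw [neg_mul, Polynomial.coeff_neg, Polynomial.coeff_C_mul_X_pow, if_neg, neg_zero]
      intro h3
      have := isL_loc d s
      rw [h2.1] at this
      omega
    · simp

end Pool.Agent.Linex
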