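import Pool.Agent.Lib.MP_c7af3c_ag.LINEX.Spec
import Pool.Agent.Lib.MP_c7af3c_ag.LINES.H19.Null
import Pool.Agent.Lib.MP_c7af3c_ag.LINES.H19.HbLines

/-!
# MP_c7af3c_ag, project LINEX: a very general complete intersection with `c + ∑ d ≤ 2 (n - 1)`
contains a line
-/

set_option autoImplicit false

namespace Pool.Agent.Linex

open MvPolynomial Pool.Agent.Gen Pool.Agent.GenY.H46 Pool.Agent.Sharp Pool.Agent.Sharp.H54
open Pool.Agent.Lines.H19
open scoped TensorProduct

/-- Two field extensions have a common extension. -/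
theorem amalg (E0 E k : Type) [Field E0] [Field E] [Field k] (f : E0 →+* E) (g : E0 →+* k) :
    ∃ (K : Type) (_ : Field K) (f' : E →+* K) (g' : k →+* K), f'.comp f = g'.comp g := by
  let _ := f.toAlgebra
  let _ := g.toAlgebra
  obtain ⟨m, hm⟩ := Ideal.exists_maximal (k ⊗[E0] E)
  let _ : Field ((k ⊗[E0] E) ⧸ m) := Ideal.Quotient.field m
  refine ⟨(k ⊗[E0] E) ⧸ m, inferInstance,
    (Ideal.Quotient.mk m).comp (Algebra.TensorProduct.includeRight : E →ₐ[E0] k ⊗[E0] E).toRingHom,
    (Ideal.Quotient.mk m).comp (Algebra.TensorProduct.includeLeft : k →ₐ[E0] k ⊗[E0] E).toRingHom,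
    ?_⟩
  ext a
  simp only [RingHom.comp_apply]
  congr 1
  have h1 := (Algebra.TensorProduct.includeRight : E →ₐ[E0] k ⊗[E0] E).commutes a
  have h2 := (Algebra.TensorProduct.includeLeft : k →ₐ[E0] k ⊗[E0] E).commutes a
  exact h1.trans h2.symm

/-- The very general complete intersection contains a line. -/
theorem lineExists (k : Type) [Field k] [IsAlgClosed k] [CharZero k] {r c : ℕ} (d : Fin c → ℕ)
    (F : Fin c → MvPolynomial (Fin (r + 1 + 1)) k) (hF : ∀ m, (F m).IsHomogeneous (d m))
    (ha : AlgebraicIndependent ℤ (fun s : Ix (M := r + 1) d => coeff s.1.2 (F s.1.1)))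
    (hd : ∀ m, 1 ≤ d m) (hN : ∑ m, (d m + 1) ≤ 2 * r) :
    ∃ a b : Fin (r + 1 + 1) → k, LinearIndependent k ![a, b] ∧ ∀ m, lineP (F m) a b = 0 := by
  classical
  set a : Ix (M := r + 1) d → k := fun s => coeff s.1.2 (F s.1.1) with hadef
  -- the two injective maps
  have hB : AlgebraicIndependent ℤ (pg (r := r) d) :=
    (indep d hd hN).restrictScalars (algebraMap ℤ ℚ).injective_int
  let A : Type := MvPolynomial (Ix (M := r + 1) d) ℤ
  let B : Type := MvPolynomial (Ix (M := r + 1) d ⊕ (Fin 2 × Fin r)) ℚ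
  let α : A →+* k := (aeval a : MvPolynomial (Ix (M := r + 1) d) ℤ →ₐ[ℤ] k).toRingHom
  let β : A →+* FractionRing B := (algebraMap B (FractionRing B)).comp
    (aeval (pg d) : MvPolynomial (Ix (M := r + 1) d) ℤ →ₐ[ℤ] B).toRingHom
  have hα : Function.Injective α := ha
  have hβ : Function.Injective β := (IsFractionRing.injective B (FractionRing B)).comp hB
  obtain ⟨K, _, f, g, hfg⟩ := amalg (FractionRing A) (FractionRing B) k
    (IsFractionRing.lift hβ) (IsFractionRing.lift hα)
  let _ : Algebra k K := g.toAlgebra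
  have key : ∀ s, f (algebraMap B (FractionRing B) (pg d s)) = g (a s) := by
    intro s
    have h1 := congrArg (fun φ : FractionRing A →+* K => φ (algebraMap A (FractionRing A) (X s)))
      hfg
    simp only [RingHom.comp_apply, IsFractionRing.lift_algebraMap] at h1
    have h2 : β (X s) = algebraMap B (FractionRing B) (pg d s) := by
      change algebraMap B (FractionRing B) (aeval (pg d) (X s)) = _
      rw [aeval_X]
    have h3 : α (X s) = a s := by
      change aeval a (X s) = _
      rw [aeval_X]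
    rw [h2, h3] at h1
    exact h1
  let φ : B →+* K := f.comp (algebraMap B (FractionRing B))
  let x : Ix (M := r + 1) d → K := fun s => φ (X (Sum.inl s))
  let y : Fin 2 × Fin r → K := fun t => φ (X (Sum.inr t))
  have hpp : pp d x y = fun s => g (a s) := by
    funext s
    rw [← key s]
    exact (map_pp d φ _ _ s).symm
  have hline := lineP_pp d x y
  rw [hpp] at hline
  have hmap : ∀ m, formOf (fun s => g (a s)) m = map g (F m) := by
    intro m
    have h1 := eq_formOf (d := d) (fun m => map g (F m)) (fun m => (hF m).map _) m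
    have h2 : (fun s : Ix (M := r + 1) d => coeff s.1.2 (map g (F s.1.1))) = fun s => g (a s) := by
      funext s
      rw [coeff_map]
    rw [h2] at h1
    exact h1.symm
  have hli : LinearIndependent K ![vu y, vv y] :=
    Lines.H19.frame_li (i0 := 0) (j0 := 1) rfl rfl rfl rfl
  obtain ⟨u, v, huv, h⟩ := line_descent k K (Set.range F) (by
    rintro _ ⟨m, rfl⟩
    exact ⟨d m, hF m⟩) (vu y) (vv y) hli (by
    rintro _ ⟨m, rfl⟩
    have h1 := hline m
    rw [hmap] at h1
    exact h1)
  exact ⟨u, v, huv, fun m => h _ ⟨m, rfl⟩⟩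

/-- The same for `n`. -/
theorem lineExists' (k : Type) [Field k] [IsAlgClosed k] [CharZero k] (n c : ℕ) (d : Fin c → ℕ)
    (F : Fin c → MvPolynomial (Fin (n + 1)) k) (hF : ∀ m, (F m).IsHomogeneous (d m))
    (ha : AlgebraicIndependent ℤ (fun s : Ix (M := n) d => coeff s.1.2 (F s.1.1)))
    (hd : ∀ m, 1 ≤ d m) (hn : 1 ≤ n) (hN : c + ∑ m, d m + 2 ≤ 2 * n) :
    ∃ a b : Fin (n + 1) → k, LinearIndependent k ![a, b] ∧ ∀ m, lineP (F m) a b = 0 := by
  obtain ⟨r, rfl⟩ := Nat.exists_eq_add_of_le' hn
  refine lineExists k d F hF ha hd ?_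
  rw [Finset.sum_add_distrib, Finset.sum_const, Finset.card_univ, Fintype.card_fin, smul_eq_mul,
    mul_one]
  omega

end Pool.Agent.Linex
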