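import Pool.Agent.Lib.MP_c7af3c_ag.LINEX.Gen

/-!
# MP_c7af3c_ag, project LINEX: the coefficients of the forms which vanish on a generic line are
algebraically independent
-/

set_option autoImplicit false

namespace Pool.Agent.Linex

open MvPolynomial Pool.Agent.Gen Pool.Agent.GenY.H46 Pool.Agent.Sharp Pool.Agent.Sharp.H54
open Pool.Agent.Lines.H19

section

variable {τ : Type} (ξ : τ → ℚ)

open Classical in
/-- the line through `ξ` in the direction `t` -/
noncomputable def dirl (t : τ) : MvPolynomial τ ℚ →ₐ[ℚ] Polynomial ℚ :=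
  aeval fun s => Polynomial.C (ξ s) + if s = t then Polynomial.X else 0

theorem dirl_X_self (t : τ) : dirl ξ t (X t) = Polynomial.C (ξ t) + Polynomial.X := by
  unfold dirl
  rw [aeval_X, if_pos rfl]

theorem dirl_X_ne {t s : τ} (h : s ≠ t) : dirl ξ t (X s) = Polynomial.C (ξ s) := by
  unfold dirl
  rw [aeval_X, if_neg h, add_zero]

theorem derivative_dirl (t : τ) (f : MvPolynomial τ ℚ) :
    Polynomial.derivative (dirl ξ t f) = dirl ξ t (pderiv t f) := by
  classical
  induction f using MvPolynomial.induction_on with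
  | C a =>
    rw [pderiv_C, map_zero]
    have : dirl ξ t (C a) = Polynomial.C a := by
      unfold dirl
      rw [aeval_C]
      rfl
    rw [this, Polynomial.derivative_C]
  | add f g hf hg => simp only [map_add, hf, hg]
  | mul_X f s hf =>
    rw [map_mul, Polynomial.derivative_mul, hf, Derivation.leibniz, pderiv_X]
    by_cases h : s = t
    · subst h
      rw [dirl_X_self, Pi.single_eq_same]
      simp only [smul_eq_mul, mul_one, map_mul, map_add, dirl_X_self,
        Polynomial.derivative_C, Polynomial.derivative_X, zero_add]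
      ring
    · rw [dirl_X_ne ξ h, Pi.single_eq_of_ne h]
      simp only [smul_eq_mul, mul_zero, map_mul, dirl_X_ne ξ h, Polynomial.derivative_C,
        add_zero, zero_add]
      ring

theorem coeff_zero_dirl (t : τ) (f : MvPolynomial τ ℚ) :
    (dirl ξ t f).coeff 0 = aeval ξ f := by
  rw [Polynomial.coeff_zero_eq_eval_zero]
  have h : (Polynomial.aeval (0 : ℚ)).comp (dirl ξ t) = (aeval ξ : MvPolynomial τ ℚ →ₐ[ℚ] ℚ) := by
    refine MvPolynomial.algHom_ext fun s => ?_
    rw [AlgHom.comp_apply, aeval_X]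
    by_cases h : s = t
    · subst h
      rw [dirl_X_self]
      simp
    · rw [dirl_X_ne ξ h]
      simp
  have h1 := congrArg (fun φ : MvPolynomial τ ℚ →ₐ[ℚ] ℚ => φ f) h
  simpa using h1

theorem coeff_one_dirl (t : τ) (f : MvPolynomial τ ℚ) :
    (dirl ξ t f).coeff 1 = aeval ξ (pderiv t f) := by
  rw [← coeff_zero_dirl ξ t, ← derivative_dirl, Polynomial.coeff_derivative]
  simp

end

section

variable {r c : ℕ} (d : Fin c → ℕ)

open Classical in
/-- the special forms -/
noncomputable def spec (o : Ix (M := r + 1) d) : ℚ :=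
  if ∃ m : Fin r, o.1.2 m.succ.succ = 1 ∧ (∀ m' ≠ m, o.1.2 m'.succ.succ = 0) ∧
    CC d o.1.1 m (o.1.2 1) then 1 else 0

/-- the special point -/
noncomputable def xi : Ix (M := r + 1) d ⊕ (Fin 2 × Fin r) → ℚ := Sum.elim (spec d) 0

/-- the generic family -/
noncomputable def pg (s : Ix (M := r + 1) d) :
    MvPolynomial (Ix (M := r + 1) d ⊕ (Fin 2 × Fin r)) ℚ :=
  pp d (fun s => X (Sum.inl s)) (fun t => X (Sum.inr t)) s

theorem dirl_pg (t : Ix (M := r + 1) d ⊕ (Fin 2 × Fin r)) (s : Ix (M := r + 1) d) :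
    dirl (xi d) t (pg d s) = pp d (fun s => dirl (xi d) t (X (Sum.inl s)))
      (fun b => dirl (xi d) t (X (Sum.inr b))) s := by
  unfold pg
  exact map_pp d (dirl (xi d) t).toRingHom _ _ s

open Classical in
/-- derivatives with respect to the coefficients -/
theorem der_inl (o : Ix (M := r + 1) d) (ho : ¬ isL d o) (s : Ix (M := r + 1) d) :
    aeval (xi d) (pderiv (Sum.inl o) (pg d s)) = if s = o then 1 else 0 := by
  rw [← coeff_one_dirl, dirl_pg]
  have hy : (fun b : Fin 2 × Fin r => dirl (xi d) (Sum.inl o) (X (Sum.inr b))) = fun _ => 0 := by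
    funext b
    rw [dirl_X_ne _ (by simp)]
    simp [xi]
  rw [hy]
  unfold pp
  by_cases hs : isL d s
  · rw [if_pos hs, if_neg (fun h : s = o => ho (h ▸ hs))]
    have h1 : rest d (fun s => dirl (xi d) (Sum.inl o) (X (Sum.inl s)))
        (fun _ : Fin 2 × Fin r => (0 : Polynomial ℚ)) s.1.1 = 0 := by
      unfold rest
      refine Finset.sum_eq_zero fun u _ => ?_
      split_ifs with hu
      · have h2 : mon (fun _ : Fin 2 × Fin r => (0 : Polynomial ℚ)) u.1.2 = 0 := by
          rw [mon_eq]
          obtain ⟨m, hm⟩ : ∃ m : Fin r, u.1.2 m.succ.succ ≠ 0 := by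
            by_contra hc
            push Not at hc
            exact hu.2 hc
          rw [Finset.prod_eq_zero (Finset.mem_univ m), mul_zero]
          rw [Polynomial.C_0, mul_zero, add_zero, zero_pow hm]
        rw [h2, mul_zero]
      · rfl
    rw [h1]
    simp
  · rw [if_neg hs]
    change (dirl (xi d) (Sum.inl o) (X (Sum.inl s))).coeff 1 = _
    by_cases hso : s = o
    · subst hso
      rw [dirl_X_self, if_pos rfl]
      simp
    · rw [dirl_X_ne _ (by simpa using hso), if_neg hso]
      simp

open Classical in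
/-- derivatives with respect to the line -/
theorem der_inr (a : Fin 2) (m : Fin r) (s : Ix (M := r + 1) d) :
    aeval (xi d) (pderiv (Sum.inr (a, m)) (pg d s)) =
      if isL d s ∧ a.1 ≤ s.1.2 1 ∧ CC d s.1.1 m (s.1.2 1 - a.1) then -1 else 0 := by
  rw [← coeff_one_dirl, dirl_pg]
  set t : Ix (M := r + 1) d ⊕ (Fin 2 × Fin r) := Sum.inr (a, m) with ht
  have hx : (fun s : Ix (M := r + 1) d => dirl (xi d) t (X (Sum.inl s))) =
      fun s => Polynomial.C (spec d s) := by
    funext s
    rw [dirl_X_ne _ (by simp [ht])]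
    simp [xi]
  have hy : (fun b : Fin 2 × Fin r => dirl (xi d) t (X (Sum.inr b))) =
      fun b => if b = (a, m) then (Polynomial.X : Polynomial ℚ) else 0 := by
    funext b
    by_cases hb : b = (a, m)
    · rw [if_pos hb, hb, ht, dirl_X_self]
      simp [xi]
    · rw [if_neg hb, dirl_X_ne _ (by simpa [ht] using hb)]
      simp [xi]
  rw [hx, hy]
  set y : Fin 2 × Fin r → Polynomial ℚ := fun b => if b = (a, m) then Polynomial.X else 0 with hyd
  unfold pp
  by_cases hs : isL d s
  swap
  · rw [if_neg hs, if_neg (fun h => hs h.1), Polynomial.coeff_C]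
    simp
  rw [if_pos hs, Polynomial.coeff_neg]
  -- the monomials
  have hmon : ∀ o : Ix (M := r + 1) d, ((mon y o.1.2).coeff (s.1.2 1)).coeff 1 =
      if o.1.2 m.succ.succ = 1 ∧ (∀ m' ≠ m, o.1.2 m'.succ.succ = 0) ∧
        o.1.2 1 + a.1 = s.1.2 1 then 1 else 0 := by
    intro o
    rw [mon_eq]
    by_cases h0 : ∀ m' ≠ m, o.1.2 m'.succ.succ = 0
    · have h1 : ∏ m' : Fin r, (Polynomial.C (y (0, m')) + Polynomial.X * Polynomial.C (y (1, m'))) ^
          o.1.2 m'.succ.succ = (Polynomial.X ^ a.1 * Polynomial.C Polynomial.X) ^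
            o.1.2 m.succ.succ := by
        rw [Finset.prod_eq_single m]
        · congr 1
          simp only [hyd, Prod.mk.injEq, and_true]
          obtain rfl | rfl : a = 0 ∨ a = 1 := by fin_cases a <;> simp
          · simp
          · simp
        · intro m' _ hm'
          rw [h0 m' hm', pow_zero]
        · intro h
          exact absurd (Finset.mem_univ m) h
      rw [h1, mul_pow, ← mul_assoc, ← pow_mul, ← pow_add, ← Polynomial.C_pow,
        Polynomial.coeff_mul_C, Polynomial.coeff_X_pow]
      by_cases h2 : o.1.2 m.succ.succ = 1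
      · rw [h2, mul_one, pow_one]
        by_cases h3 : o.1.2 1 + a.1 = s.1.2 1
        · rw [if_pos h3.symm, one_mul, Polynomial.coeff_X_one, if_pos ⟨rfl, h0, h3⟩]
        · rw [if_neg (fun h => h3 h.symm), zero_mul, Polynomial.coeff_zero,
            if_neg (fun h => h3 h.2.2)]
      · simp only [h2, false_and, if_false]
        split_ifs
        · rw [one_mul, Polynomial.coeff_X_pow, if_neg (fun h => h2 h.symm)]
        · rw [zero_mul, Polynomial.coeff_zero]
    · rw [if_neg (fun h => h0 h.2.1)]
      push Not at h0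
      obtain ⟨m', hm', h1⟩ := h0
      rw [Finset.prod_eq_zero (Finset.mem_univ m'), mul_zero]
      · simp
      · simp only [hyd, Prod.mk.injEq, hm', and_false, if_false]
        rw [Polynomial.C_0, mul_zero, add_zero, zero_pow h1]
  have hrest : ((rest d (fun s => Polynomial.C (spec d s)) y s.1.1).coeff (s.1.2 1)).coeff 1 =
      ∑ o : Ix (M := r + 1) d, if o.1.1 = s.1.1 ∧ CC d s.1.1 m (s.1.2 1 - a.1) ∧
        o.1.2 m.succ.succ = 1 ∧ (∀ m' ≠ m, o.1.2 m'.succ.succ = 0) ∧
        o.1.2 1 + a.1 = s.1.2 1 then 1 else 0 := by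
    unfold rest
    rw [Polynomial.finsetSum_coeff, Polynomial.finsetSum_coeff]
    refine Finset.sum_congr rfl fun o _ => ?_
    by_cases h1 : o.1.1 = s.1.1 ∧ ¬ isL d o
    · rw [if_pos h1, Polynomial.coeff_C_mul, Polynomial.coeff_C_mul, hmon]
      by_cases h2 : o.1.2 m.succ.succ = 1 ∧ (∀ m' ≠ m, o.1.2 m'.succ.succ = 0) ∧
          o.1.2 1 + a.1 = s.1.2 1
      · rw [if_pos h2, mul_one]
        unfold spec
        have h3 : (∃ m : Fin r, o.1.2 m.succ.succ = 1 ∧ (∀ m' ≠ m, o.1.2 m'.succ.succ = 0) ∧
            CC d o.1.1 m (o.1.2 1)) ↔ CC d s.1.1 m (s.1.2 1 - a.1) := by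
          have h4 : o.1.2 1 = s.1.2 1 - a.1 := by omega
          constructor
          · rintro ⟨m', h5, h6, h7⟩
            have h8 : m' = m := by
              by_contra hc
              rw [h2.2.1 m' hc] at h5
              exact zero_ne_one h5
            subst h8
            rwa [h1.1, h4] at h7
          · intro h5
            exact ⟨m, h2.1, h2.2.1, by rwa [h1.1, h4]⟩
        by_cases h4 : CC d s.1.1 m (s.1.2 1 - a.1)
        · rw [if_pos (h3.2 h4), if_pos ⟨h1.1, h4, h2⟩]
        · rw [if_neg (fun h => h4 (h3.1 h)), if_neg (fun h => h4 h.2.1)]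
      · rw [if_neg h2, mul_zero, if_neg (fun h => h2 h.2.2)]
    · rw [if_neg h1, if_neg]
      · simp
      · rintro ⟨h2, -, h3, -, -⟩
        exact h1 ⟨h2, fun h => by rw [h m] at h3; exact zero_ne_one h3⟩
  rw [hrest]
  by_cases hc : a.1 ≤ s.1.2 1 ∧ CC d s.1.1 m (s.1.2 1 - a.1)
  · rw [if_pos ⟨hs, hc⟩]
    have hi := hc.2.1
    have hdeg : (Finsupp.single (0 : Fin (r + 1 + 1)) (d s.1.1 - 1 - (s.1.2 1 - a.1)) +
        Finsupp.single 1 (s.1.2 1 - a.1) + Finsupp.single m.succ.succ 1).degree = d s.1.1 := by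
      rw [map_add, map_add, Finsupp.degree_single, Finsupp.degree_single, Finsupp.degree_single]
      omega
    set o0 : Ix (M := r + 1) d := ⟨(s.1.1, _), hdeg⟩ with ho0
    have e10 : (1 : Fin (r + 1 + 1)) ≠ 0 := by
      intro h
      have := congrArg Fin.val h
      simp at this
    have e0 : ∀ m : Fin r, m.succ.succ ≠ (0 : Fin (r + 1 + 1)) := fun m => Fin.succ_ne_zero _
    have e1 : ∀ m : Fin r, m.succ.succ ≠ (1 : Fin (r + 1 + 1)) := fun m => by
      rw [← Fin.succ_zero_eq_one, Ne, Fin.succ_inj]
      exact Fin.succ_ne_zero _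
    have ho1 : o0.1.2 1 = s.1.2 1 - a.1 := by
      simp only [ho0, Finsupp.add_apply]
      rw [Finsupp.single_eq_of_ne e10, Finsupp.single_eq_same,
        Finsupp.single_eq_of_ne (e1 m).symm, zero_add, add_zero]
    have hom : o0.1.2 m.succ.succ = 1 := by
      simp only [ho0, Finsupp.add_apply]
      rw [Finsupp.single_eq_of_ne (e0 m), Finsupp.single_eq_of_ne (e1 m), Finsupp.single_eq_same,
        zero_add, zero_add]
    have hom' : ∀ m' ≠ m, o0.1.2 m'.succ.succ = 0 := by
      intro m' hm'
      simp only [ho0, Finsupp.add_apply]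
      have h5 : m'.succ.succ ≠ m.succ.succ := fun h => hm' (Fin.succ_injective _
        (Fin.succ_injective _ h))
      rw [Finsupp.single_eq_of_ne (e0 m'), Finsupp.single_eq_of_ne (e1 m'),
        Finsupp.single_eq_of_ne h5, add_zero, add_zero]
    rw [Finset.sum_eq_single o0]
    · rw [if_pos ⟨rfl, hc.2, hom, hom', by omega⟩]
    · intro o _ hne
      rw [if_neg]
      rintro ⟨h1, h2, h3, h4, h5⟩
      have h1' : o.1.1 = o0.1.1 := h1
      apply hne
      apply Subtype.ext
      apply Prod.ext h1'
      have hd1 := degree_fin o.1.2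
      rw [o.2, Finset.sum_eq_single m (fun b _ hb => h4 b hb)
        (fun h => absurd (Finset.mem_univ m) h), h3, h1] at hd1
      have hd0 := degree_fin o0.1.2
      rw [o0.2, Finset.sum_eq_single m (fun b _ hb => hom' b hb)
        (fun h => absurd (Finset.mem_univ m) h), hom] at hd0
      change d s.1.1 = _ at hd0
      ext l
      refine Fin.cases ?_ (fun l => ?_) l
      · omega
      · refine Fin.cases ?_ (fun b => ?_) l
        · change o.1.2 1 = o0.1.2 1
          omega
        · by_cases hb : b = m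
          · rw [hb, h3, hom]
          · rw [h4 b hb, hom' b hb]
    · intro h
      exact absurd (Finset.mem_univ o0) h
  · rw [if_neg (fun h => hc h.2)]
    rw [Finset.sum_eq_zero, neg_zero]
    intro o _
    rw [if_neg]
    rintro ⟨-, h2, -, -, h5⟩
    exact hc ⟨by omega, h2⟩

/-- The coefficients of the generic forms through a generic line are algebraically independent. -/
theorem indep (hd : ∀ j, 1 ≤ d j) (hN : ∑ j, (d j + 1) ≤ 2 * r) :
    AlgebraicIndependent ℚ (pg (r := r) d) := by
  classical
  refine jac (R := ℚ) (algebraMap ℚ _).injective (pg d) (fun t => pderiv t) ?_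
  refine kernel_generic (K := ℚ) (fun s t => pderiv t (pg d s)) (aeval (xi d)) ?_
  intro lam hlam
  have hL : ∀ s, isL d s → lam s = 0 := by
    refine comb d (isL d) (fun s => s.1.1) (fun s => s.1.2 1) (r := r) hd hN
      (fun s s' h h' h1 h2 => isL_inj d s s' h h' h1 h2) (fun s _ => isL_loc d s) lam ?_ ?_
    · intro m hm
      have h1 := hlam (Sum.inr (0, ⟨m, hm⟩))
      simp only [der_inr] at h1
      refine neg_eq_zero.1 ?_
      rw [← Finset.sum_neg_distrib]
      refine Eq.trans (Finset.sum_congr rfl fun s _ => ?_) h1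
      simp only [Fin.val_zero, Nat.zero_le, Nat.sub_zero, true_and]
      split_ifs <;> ring
    · intro m hm
      have h1 := hlam (Sum.inr (1, ⟨m, hm⟩))
      simp only [der_inr] at h1
      refine neg_eq_zero.1 ?_
      rw [← Finset.sum_neg_distrib]
      refine Eq.trans (Finset.sum_congr rfl fun s _ => ?_) h1
      simp only [Fin.val_one]
      split_ifs <;> ring
  funext s
  by_cases hs : isL d s
  · exact hL s hs
  · have h1 := hlam (Sum.inl s)
    simp only [der_inl d s hs] at h1
    rw [Finset.sum_eq_single s (fun b _ hb => by rw [if_neg hb, mul_zero])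
      (fun h => absurd (Finset.mem_univ s) h), if_pos rfl, mul_one] at h1
    exact h1

end

end Pool.Agent.Linex
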